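import Mathlib

/-!
# MP_29028a_co : a weighted small-step model for which decoupling depends on `t`

The model has the six steps `(1,1), (1,0), (0,1), (1,-1), (-1,1), (-1,-1)` with weights
`100, 520, 520, 100, 100, 75` and starting point `(1,1)`, so that `P(1,1) = 1415`.  It decouples at
`t = 1/1871`, but not at `t = 1/8112`.
-/

set_option autoImplicit false

open Polynomial

namespace Pool.Agent.Results.MP_29028a_co.DecouplingDependsOnTime

/-- The data of a weighted small-step model: the step set, the weights and the starting point. -/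
structure Model where
  /-- the step set -/
  S : Finset (ℤ × ℤ)
  /-- the weights -/
  w : ℤ × ℤ → ℝ
  /-- the first coordinate of the starting point -/
  p : ℤ
  /-- the second coordinate of the starting point -/
  q : ℤ

/-- The requirements on a model: small nonzero steps; non-singularity (for every line
`a x + b y = 0` through the origin some step lies strictly on the side `a x + b y > 0`; applied to
`(-a, -b)` this gives the other side); positive weights; a starting point `(p, q)` with `p > 0` and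
`q ≥ 0`. -/
structure Model.IsAdmissible (M : Model) : Prop where
  small : ∀ s ∈ M.S, s ≠ 0 ∧ s.1 ∈ ({-1, 0, 1} : Set ℤ) ∧ s.2 ∈ ({-1, 0, 1} : Set ℤ)
  nonsingular : ∀ a b : ℝ, (a ≠ 0 ∨ b ≠ 0) → ∃ s ∈ M.S, 0 < a * s.1 + b * s.2
  weight_pos : ∀ s ∈ M.S, 0 < M.w s
  start_fst : 0 < M.p
  start_snd : 0 ≤ M.q

/-- The step polynomial `P(x, y) = ∑ w_s x^i y^j` at complex `x, y`. -/
noncomputable def Model.P (M : Model) (x y : ℂ) : ℂ :=
  ∑ s ∈ M.S, (M.w s : ℂ) * x ^ s.1 * y ^ s.2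

/-- The value `P(1, 1)`, the sum of the weights. -/
noncomputable def Model.P11 (M : Model) : ℝ := ∑ s ∈ M.S, M.w s

/-- The kernel curve `E_t`: the points `(x, y)` with `x, y ≠ 0` and `K(x, y) = 1 - t P(x, y) = 0`. -/
def Model.E (M : Model) (t : ℝ) : Set (ℂ × ℂ) :=
  {z | z.1 ≠ 0 ∧ z.2 ≠ 0 ∧ 1 - (t : ℂ) * M.P z.1 z.2 = 0}

/-- The model decouples at `t`: there are rational functions `R₁ = n₁ / d₁` and `R₂ = n₂ / d₂` such
that `x^p y^q = R₁(x) + R₂(y)` at all points of `E_t` where the right hand side is defined. -/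
def Model.DecouplesAt (M : Model) (t : ℝ) : Prop :=
  ∃ n₁ d₁ n₂ d₂ : ℂ[X], d₁ ≠ 0 ∧ d₂ ≠ 0 ∧ ∀ z ∈ M.E t, d₁.eval z.1 ≠ 0 → d₂.eval z.2 ≠ 0 →
    z.1 ^ M.p * z.2 ^ M.q = n₁.eval z.1 / d₁.eval z.1 + n₂.eval z.2 / d₂.eval z.2

/-- The weights. -/
noncomputable def wt (s : ℤ × ℤ) : ℝ :=
  if s = (1, 0) ∨ s = (0, 1) then 520 else if s = (-1, -1) then 75 else 100

/-- The model. -/
noncomputable def model : Model where
  S := {(1, 1), (1, 0), (0, 1), (1, -1), (-1, 1), (-1, -1)}
  w := wt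
  p := 1
  q := 1

theorem model_P11 : model.P11 = 1415 := by
  simp only [Model.P11, model]
  rw [Finset.sum_insert (by decide), Finset.sum_insert (by decide), Finset.sum_insert (by decide),
    Finset.sum_insert (by decide), Finset.sum_insert (by decide), Finset.sum_singleton]
  simp only [wt, Prod.mk.injEq]
  norm_num

theorem model_P (x y : ℂ) : model.P x y =
    100 * x * y + (520 * x + (520 * y + (100 * x * y⁻¹ + (100 * x⁻¹ * y + 75 * x⁻¹ * y⁻¹)))) := by
  simp only [Model.P, model]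
  rw [Finset.sum_insert (by decide), Finset.sum_insert (by decide), Finset.sum_insert (by decide),
    Finset.sum_insert (by decide), Finset.sum_insert (by decide), Finset.sum_singleton]
  simp only [wt, Prod.mk.injEq]
  norm_num

theorem model_admissible : model.IsAdmissible where
  small := by
    intro s hs
    simp only [model, Finset.mem_insert, Finset.mem_singleton] at hs
    rcases hs with rfl | rfl | rfl | rfl | rfl | rfl <;> simp
  nonsingular := by
    intro a b hab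
    by_cases h1 : 0 < a + b
    · exact ⟨(1, 1), by simp [model], by push_cast; linarith⟩
    by_cases h2 : a + b < 0
    · exact ⟨(-1, -1), by simp [model], by push_cast; linarith⟩
    have h3 : b = -a := by linarith
    subst h3
    rcases lt_trichotomy a 0 with h | h | h
    · exact ⟨(0, 1), by simp [model], by push_cast; linarith⟩
    · subst h
      simp at hab
    · exact ⟨(1, 0), by simp [model], by push_cast; linarith⟩
  weight_pos := by
    intro s _
    simp only [model, wt]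
    split_ifs <;> norm_num
  start_fst := by simp [model]
  start_snd := by simp [model]

/-- The kernel curve in polynomial form. -/
theorem mem_E {τ : ℝ} (hτ : τ ≠ 0) {x y : ℂ} : (x, y) ∈ model.E (1 / τ) ↔ x ≠ 0 ∧ y ≠ 0 ∧
    100 * x ^ 2 * y ^ 2 + 520 * x ^ 2 * y + 520 * x * y ^ 2 + 100 * x ^ 2 + 100 * y ^ 2 + 75 =
      τ * (x * y) := by
  have hτ' : (τ : ℂ) ≠ 0 := by exact_mod_cast hτ
  simp only [Model.E, Set.mem_ofPred_eq, model_P]
  refine and_congr_right fun hx => and_congr_right fun hy => ?_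
  push_cast
  constructor
  · intro h
    field_simp at h
    linear_combination -h
  · intro h
    field_simp
    linear_combination -h

theorem decouples : model.DecouplesAt (1 / 1871) := by
  refine ⟨C (-15 / 8) + C (75 / 8) * X + C (-5) * X ^ 2, X + C (1 / 5),
    C (-15 / 8) + C (75 / 8) * X + C (-5) * X ^ 2, X + C (1 / 5), X_add_C_ne_zero _,
    X_add_C_ne_zero _, ?_⟩
  rintro ⟨x, y⟩ hz h1 h2
  rw [mem_E (by norm_num)] at hz
  obtain ⟨hx, hy, h⟩ := hz
  push_cast at h
  simp only [eval_add, eval_X, eval_C, eval_mul, eval_pow] at h1 h2 ⊢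
  simp only [model, zpow_one]
  rw [div_add_div _ _ h1 h2, eq_div_iff (mul_ne_zero h1 h2)]
  linear_combination (1 / 100) * h

/-! ### No decoupling at `t = 1/8112` -/

/-- The discriminant for the two values of `x`. -/
noncomputable def Dx (c : ℝ) : ℝ := (104 - 78 * c) ^ 2 - 100 * c

/-- The discriminant for the two values of `y`. -/
noncomputable def Dy (c : ℝ) : ℝ := 26 ^ 2 - 25 * (1 - c) * (4 - 3 * c)

/-- The equation for `x`. -/
def EqX (c x : ℝ) : Prop := c * x ^ 2 + (104 - 78 * c) / 5 * x + 1 = 0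

/-- The equation for `y`. -/
def EqY (c y : ℝ) : Prop := (1 - c) * y ^ 2 + 26 / 5 * y + (1 - 3 / 4 * c) = 0

/-- The two values of `x` (for `ε = ±1`). -/
noncomputable def fx (ε c : ℝ) : ℝ := (-(104 - 78 * c) + ε * √(Dx c)) / (10 * c)

/-- The two values of `y` (for `ε = ±1`). -/
noncomputable def fy (ε c : ℝ) : ℝ := (-26 + ε * √(Dy c)) / (10 * (1 - c))

theorem Dx_pos {c : ℝ} (h0 : 0 < c) (h1 : c < 1 / 2) : 0 < Dx c := by
  unfold Dx
  nlinarith

theorem Dy_pos {c : ℝ} (h0 : 0 < c) (h1 : c < 1 / 2) : 0 < Dy c := by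
  unfold Dy
  nlinarith

theorem eqX_fx {ε c : ℝ} (hε : ε ^ 2 = 1) (h0 : 0 < c) (h1 : c < 1 / 2) : EqX c (fx ε c) := by
  have he : (ε * √(Dx c)) ^ 2 = Dx c := by
    rw [mul_pow, hε, Real.sq_sqrt (Dx_pos h0 h1).le, one_mul]
  unfold EqX fx
  set e := ε * √(Dx c)
  unfold Dx at he
  field_simp
  linear_combination 5 * he

theorem eqY_fy {ε c : ℝ} (hε : ε ^ 2 = 1) (h0 : 0 < c) (h1 : c < 1 / 2) : EqY c (fy ε c) := by
  have he : (ε * √(Dy c)) ^ 2 = Dy c := by
    rw [mul_pow, hε, Real.sq_sqrt (Dy_pos h0 h1).le, one_mul]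
  unfold EqY fy
  set e := ε * √(Dy c)
  unfold Dy at he
  have : 1 - c ≠ 0 := by linarith
  field_simp
  linear_combination 20 * he

theorem eqX_unique {c c' x : ℝ} (h : EqX c x) (h' : EqX c' x) : c = c' := by
  unfold EqX at h h'
  have h1 : (c - c') * (x ^ 2 - 78 / 5 * x) = 0 := by linear_combination h - h'
  rcases mul_eq_zero.mp h1 with h2 | h2
  · linarith
  · exfalso
    have h3 : 104 / 5 * x + 1 = 0 := by linear_combination h - c * h2
    have h4 : x = -(5 / 104) := by linarith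
    rw [h4] at h2
    norm_num at h2

theorem eqY_unique {c c' y : ℝ} (h : EqY c y) (h' : EqY c' y) : c = c' := by
  unfold EqY at h h'
  have h1 : (c - c') * (y ^ 2 + 3 / 4) = 0 := by linear_combination h' - h
  rcases mul_eq_zero.mp h1 with h2 | h2
  · linarith
  · nlinarith [sq_nonneg y]

/-- The common solutions of the two equations are on the curve. -/
theorem mem_E_of {c x y : ℝ} (h0 : 0 < c) (h1 : c < 1 / 2) (hx : EqX c x) (hy : EqY c y) :
    ((x : ℂ), (y : ℂ)) ∈ model.E (1 / 8112) := by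
  rw [mem_E (by norm_num)]
  unfold EqX at hx
  unfold EqY at hy
  refine ⟨?_, ?_, ?_⟩
  · intro h
    have h2 : x = 0 := by exact_mod_cast h
    rw [h2] at hx
    norm_num at hx
  · intro h
    have h2 : y = 0 := by exact_mod_cast h
    rw [h2] at hy
    norm_num at hy
    linarith
  · have h2 : 100 * x ^ 2 * y ^ 2 + 520 * x ^ 2 * y + 520 * x * y ^ 2 + 100 * x ^ 2
        + 100 * y ^ 2 + 75 = 8112 * (x * y) := by
      linear_combination 100 * (x ^ 2 - 78 / 5 * x) * hy + 100 * (y ^ 2 + 3 / 4) * hx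
    exact_mod_cast h2

theorem fx_ne {c : ℝ} (h0 : 0 < c) (h1 : c < 1 / 2) : fx 1 c ≠ fx (-1) c := by
  have h2 : fx 1 c - fx (-1) c = √(Dx c) / (5 * c) := by
    unfold fx
    field_simp
    ring
  intro h3
  rw [h3, sub_self] at h2
  have h4 : 0 < √(Dx c) / (5 * c) := div_pos (Real.sqrt_pos.mpr (Dx_pos h0 h1)) (by linarith)
  linarith

theorem fy_ne {c : ℝ} (h0 : 0 < c) (h1 : c < 1 / 2) : fy 1 c ≠ fy (-1) c := by
  have h5 : 1 - c ≠ 0 := by linarith
  have h2 : fy 1 c - fy (-1) c = √(Dy c) / (5 * (1 - c)) := by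
    unfold fy
    field_simp
    ring
  intro h3
  rw [h3, sub_self] at h2
  have h4 : 0 < √(Dy c) / (5 * (1 - c)) :=
    div_pos (Real.sqrt_pos.mpr (Dy_pos h0 h1)) (by linarith)
  linarith

/-- A nonzero polynomial vanishes at `f c` for finitely many `c` only, for injective `f`. -/
theorem finite_bad {d : ℂ[X]} (hd : d ≠ 0) {f : ℝ → ℝ} (hf : Set.InjOn f (Set.Ioo 0 (1 / 2))) :
    {c : ℝ | c ∈ Set.Ioo (0 : ℝ) (1 / 2) ∧ d.eval ((f c : ℝ) : ℂ) = 0}.Finite := by
  have h1 : {z : ℂ | d.eval z = 0}.Finite := by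
    refine (d.roots.toFinset.finite_toSet).subset fun z hz => ?_
    simp only [Finset.mem_coe, Multiset.mem_toFinset]
    exact (mem_roots hd).mpr hz
  have h2 : {c : ℝ | c ∈ Set.Ioo (0 : ℝ) (1 / 2) ∧ d.eval ((f c : ℝ) : ℂ) = 0} ⊆
      Set.Ioo (0 : ℝ) (1 / 2) ∩ (fun c => ((f c : ℝ) : ℂ)) ⁻¹' {z : ℂ | d.eval z = 0} := by
    intro c hc
    exact hc
  refine Set.Finite.subset ?_ h2
  rw [Set.inter_comm]
  have h3 : Set.InjOn (fun c => ((f c : ℝ) : ℂ)) (Set.Ioo 0 (1 / 2)) := by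
    intro a ha b hb hab
    have hab' : ((f a : ℝ) : ℂ) = ((f b : ℝ) : ℂ) := hab
    exact hf ha hb (by exact_mod_cast hab')
  refine Set.Finite.of_finite_image (f := fun c => ((f c : ℝ) : ℂ)) (h1.subset ?_)
    (h3.mono Set.inter_subset_right)
  rintro _ ⟨c, hc, rfl⟩
  exact hc.1

theorem fx_injOn {ε : ℝ} (hε : ε ^ 2 = 1) : Set.InjOn (fx ε) (Set.Ioo 0 (1 / 2)) := by
  intro a ha b hb hab
  have h1 := eqX_fx hε ha.1 ha.2
  have h2 := eqX_fx hε hb.1 hb.2
  rw [← hab] at h2
  exact eqX_unique h1 h2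

theorem fy_injOn {ε : ℝ} (hε : ε ^ 2 = 1) : Set.InjOn (fy ε) (Set.Ioo 0 (1 / 2)) := by
  intro a ha b hb hab
  have h1 := eqY_fy hε ha.1 ha.2
  have h2 := eqY_fy hε hb.1 hb.2
  rw [← hab] at h2
  exact eqY_unique h1 h2

theorem not_decouples : ¬ model.DecouplesAt (1 / 8112) := by
  rintro ⟨n₁, d₁, n₂, d₂, hd₁, hd₂, h⟩
  have e1 : (1 : ℝ) ^ 2 = 1 := by norm_num
  have e2 : (-1 : ℝ) ^ 2 = 1 := by norm_num
  have hfin := (((finite_bad hd₁ (fx_injOn e1)).union (finite_bad hd₁ (fx_injOn e2))).union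
    (finite_bad hd₂ (fy_injOn e1))).union (finite_bad hd₂ (fy_injOn e2))
  obtain ⟨c, hc, hbad⟩ := ((Set.Ioo_infinite (show (0 : ℝ) < 1 / 2 by norm_num)).sdiff
    hfin).nonempty
  simp only [Set.mem_union, Set.mem_ofPred_eq, not_or, not_and] at hbad
  obtain ⟨⟨⟨b1, b2⟩, b3⟩, b4⟩ := hbad
  have b1 := b1 hc
  have b2 := b2 hc
  have b3 := b3 hc
  have b4 := b4 hc
  have x1 := eqX_fx e1 hc.1 hc.2
  have x2 := eqX_fx e2 hc.1 hc.2
  have y1 := eqY_fy e1 hc.1 hc.2
  have y2 := eqY_fy e2 hc.1 hc.2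
  have h11 := h _ (mem_E_of hc.1 hc.2 x1 y1) b1 b3
  have h12 := h _ (mem_E_of hc.1 hc.2 x1 y2) b1 b4
  have h21 := h _ (mem_E_of hc.1 hc.2 x2 y1) b2 b3
  have h22 := h _ (mem_E_of hc.1 hc.2 x2 y2) b2 b4
  simp only [model, zpow_one] at h11 h12 h21 h22
  have h3 : ((fx 1 c : ℂ) - (fx (-1) c : ℂ)) * ((fy 1 c : ℂ) - (fy (-1) c : ℂ)) = 0 := by
    linear_combination h11 - h12 - h21 + h22
  rcases mul_eq_zero.mp h3 with h4 | h4
  · exact fx_ne hc.1 hc.2 (by exact_mod_cast sub_eq_zero.mp h4)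
  · exact fy_ne hc.1 hc.2 (by exact_mod_cast sub_eq_zero.mp h4)

/-- **Decoupling depends on `t`**: there are a model and two values `t₁, t₂` in `(0, 1/P(1,1))` such
that the model decouples at `t₁` but not at `t₂`. -/
theorem result : ∃ (M : Model) (t₁ t₂ : ℝ), M.IsAdmissible ∧
    t₁ ∈ Set.Ioo 0 (1 / M.P11) ∧ t₂ ∈ Set.Ioo 0 (1 / M.P11) ∧
    M.DecouplesAt t₁ ∧ ¬ M.DecouplesAt t₂ := by
  refine ⟨model, 1 / 1871, 1 / 8112, model_admissible, ?_, ?_, decouples, not_decouples⟩
  · rw [model_P11]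
    norm_num
  · rw [model_P11]
    norm_num

end Pool.Agent.Results.MP_29028a_co.DecouplingDependsOnTime
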